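import Pool.Agent.Q151.OG.Stm

set_option autoImplicit false

namespace Q151.OG

open MvPolynomial

/-- lower bound for the Krull dimension -/
theorem krullDim_succ_le {α β : Type} [Preorder α] [Preorder β] (f : α → β) (hf : StrictMono f)
    (h : ∀ a, ∃ b, b < f a) : Order.krullDim α + 1 ≤ Order.krullDim β := by
  have key : ∀ n : ℕ, (n : WithBot ℕ∞) ≤ Order.krullDim α →
      ((n + 1 : ℕ) : WithBot ℕ∞) ≤ Order.krullDim β := by
    intro n hn
    obtain ⟨l, hl⟩ := Order.le_krullDim_iff.mp hn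
    obtain ⟨b, hb⟩ := h l.head
    have hb' : (b, RelSeries.head (l.map f hf)) ∈ {(a, b) : β × β | a < b} := by
      show b < (l.map f hf).head
      rw [LTSeries.head_map]
      exact hb
    refine Order.le_krullDim_iff.mpr ⟨RelSeries.cons (l.map f hf) b hb', ?_⟩
    rw [RelSeries.cons_length]
    show l.length + 1 = n + 1
    rw [hl]
  rcases isEmpty_or_nonempty α with hα | hα
  · rw [Order.krullDim_eq_bot, WithBot.bot_add]
    exact bot_le
  · by_cases htop : Order.krullDim α = ⊤
    · have : Order.krullDim β = ⊤ := by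
        rw [ENat.WithBot.eq_top_iff_forall_ge]
        intro n
        refine le_trans ?_ (key n (by rw [htop]; exact le_top))
        exact_mod_cast Nat.le_succ n
      rw [this]
      exact le_top
    · have hb := Order.krullDim_ne_bot_iff.mpr hα
      obtain ⟨m, hm⟩ := WithBot.ne_bot_iff_exists.mp hb
      have hm' : m ≠ ⊤ := by
        rintro rfl
        exact htop hm.symm
      obtain ⟨n, rfl⟩ := ENat.ne_top_iff_exists.mp hm'
      have h1 := key n (le_of_eq hm)
      rw [← hm]
      refine le_trans (le_of_eq ?_) h1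
      norm_cast

/-- the polynomial in `u` with coefficients in the polynomials in `y` -/
noncomputable def eta (N : ℕ) : MvPolynomial (Fin N ⊕ Sym2 (Fin N)) ℂ →ₐ[ℂ]
    MvPolynomial (Fin N) (MvPolynomial (Sym2 (Fin N)) ℂ) :=
  aeval (Sum.elim X (fun s => C (X s)))

theorem eta_C {N : ℕ} (r : ℂ) : eta N (C r) = C (C r) := by
  unfold eta
  rw [aeval_C]
  rfl

theorem eta_Xl {N : ℕ} (j : Fin N) : eta N (X (Sum.inl j)) = X j := by
  unfold eta
  rw [aeval_X]
  rfl

theorem eta_Xr {N : ℕ} (s : Sym2 (Fin N)) : eta N (X (Sum.inr s)) = C (X s) := by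
  unfold eta
  rw [aeval_X]
  rfl

theorem eta_eval {N : ℕ} (g : MvPolynomial (Fin N ⊕ Sym2 (Fin N)) ℂ) (u : Fin N → ℂ)
    (y : Sym2 (Fin N) → ℂ) :
    eval u (MvPolynomial.map (eval y) (eta N g)) = eval (Sum.elim u y) g := by
  induction g using MvPolynomial.induction_on with
  | C r => rw [eta_C, map_C, eval_C, eval_C, eval_C]
  | add p q hp hq =>
    rw [map_add (eta N), map_add (MvPolynomial.map (eval y)), map_add (eval u),
      map_add (eval (Sum.elim u y)), hp, hq]
  | mul_X p i hp =>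
    rw [map_mul (eta N), map_mul (MvPolynomial.map (eval y)), map_mul (eval u),
      map_mul (eval (Sum.elim u y)), hp, eval_X]
    rcases i with i | s
    · rw [eta_Xl, map_X, eval_X]
      rfl
    · rw [eta_Xr, map_C, eval_C, eval_X]
      rfl

theorem coeff_eta {N : ℕ} (z : Equiv.Perm (Fin N)) (g : MvPolynomial (Fin N ⊕ Sym2 (Fin N)) ℂ)
    (hg : g ∈ vanishingIdeal ℂ (VE z)) (α : Fin N →₀ ℕ) :
    coeff α (eta N g) ∈ vanishingIdeal ℂ (MX z) := by
  rw [mem_vanishingIdeal_iff]
  intro y hy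
  have h1 : MvPolynomial.map (eval y) (eta N g) = 0 := by
    apply MvPolynomial.funext
    intro u
    rw [eta_eval, map_zero]
    have h2 := (mem_vanishingIdeal_iff.mp hg) (Sum.elim u y) (by
      show (fun s => (Sum.elim u y : Fin N ⊕ Sym2 (Fin N) → ℂ) (Sum.inr s)) ∈ MX z
      exact hy)
    exact h2
  have h3 : coeff α (MvPolynomial.map (eval y) (eta N g)) = 0 := by rw [h1, coeff_zero]
  rw [coeff_map] at h3
  exact h3

theorem eval_th {N : ℕ} (f : MvPolynomial (Sym2 (Fin (N + 1))) ℂ)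
    (v : Fin N ⊕ Sym2 (Fin N) → ℂ) :
    aeval v (th N f) = aeval (blow 1 (fun j => v (Sum.inl j)) (fun s => v (Sum.inr s))) f := by
  rw [← AlgHom.comp_apply]
  congr 1
  apply algHom_ext
  intro s
  rw [AlgHom.comp_apply, aeval_X]
  unfold th
  rw [aeval_X]
  induction s using Sym2.ind with
  | _ i j =>
    induction i using Fin.cases with
    | zero => induction j using Fin.cases with
      | zero => exact map_one _
      | succ j => exact aeval_X _ _
    | succ i => induction j using Fin.cases with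
      | zero => exact aeval_X _ _
      | succ j =>
        show aeval v (X (Sum.inr s(i, j)) + X (Sum.inl i) * X (Sum.inl j)) =
          v (Sum.inr s(i, j)) + v (Sum.inl i) * v (Sum.inl j) / 1
        rw [map_add, map_mul, aeval_X, aeval_X, aeval_X, div_one]

/-- the scaling -/
noncomputable def scl (σ : Type) : MvPolynomial σ ℂ →+* Polynomial (MvPolynomial σ ℂ) :=
  eval₂Hom (Polynomial.C.comp C) (fun s => Polynomial.X * Polynomial.C (X s))

theorem scl_C {σ : Type} (r : ℂ) : scl σ (C r) = Polynomial.C (C r) := by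
  unfold scl
  rw [coe_eval₂Hom, eval₂_C]
  rfl

theorem scl_X {σ : Type} (s : σ) : scl σ (X s) = Polynomial.X * Polynomial.C (X s) := by
  unfold scl
  rw [coe_eval₂Hom, eval₂_X]

theorem scl_one {σ : Type} (f : MvPolynomial σ ℂ) : Polynomial.eval 1 (scl σ f) = f := by
  induction f using MvPolynomial.induction_on with
  | C r => rw [scl_C, Polynomial.eval_C]
  | add p q hp hq => rw [map_add, Polynomial.eval_add, hp, hq]
  | mul_X p i hp =>
    rw [map_mul, Polynomial.eval_mul, hp, scl_X, Polynomial.eval_mul, Polynomial.eval_X,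
      Polynomial.eval_C, one_mul]

theorem scl_eval {σ : Type} (f : MvPolynomial σ ℂ) (x : σ → ℂ) (c : ℂ) :
    Polynomial.eval c ((scl σ f).map (eval x)) = eval (fun s => c * x s) f := by
  induction f using MvPolynomial.induction_on with
  | C r => rw [scl_C, Polynomial.map_C, Polynomial.eval_C, eval_C, eval_C]
  | add p q hp hq => rw [map_add, Polynomial.map_add, Polynomial.eval_add, hp, hq, map_add]
  | mul_X p i hp =>
    rw [map_mul, Polynomial.map_mul, Polynomial.eval_mul, hp, scl_X, Polynomial.map_mul,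
      Polynomial.map_X, Polynomial.map_C, Polynomial.eval_mul, Polynomial.eval_X,
      Polynomial.eval_C, map_mul, eval_X, eval_X]

theorem scl_coeff {σ : Type} (V : Set (σ → ℂ)) (hV : ∀ x ∈ V, ∀ c : ℂ, (fun s => c * x s) ∈ V)
    (f : MvPolynomial σ ℂ) (hf : f ∈ vanishingIdeal ℂ V) (k : ℕ) :
    (scl σ f).coeff k ∈ vanishingIdeal ℂ V := by
  rw [mem_vanishingIdeal_iff]
  intro x hx
  have h1 : (scl σ f).map (eval x) = 0 := by
    apply Polynomial.funext
    intro c
    rw [scl_eval, Polynomial.eval_zero]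
    exact (mem_vanishingIdeal_iff.mp hf) _ (hV x hx c)
  have h2 : ((scl σ f).map (eval x)).coeff k = 0 := by rw [h1, Polynomial.coeff_zero]
  rw [Polynomial.coeff_map] at h2
  exact h2

theorem MX_smul {N : ℕ} (z : Equiv.Perm (Fin N)) (x : Sym2 (Fin N) → ℂ) (hx : x ∈ MX z) (c : ℂ) :
    (fun s => c * x s) ∈ MX z := by
  intro i j
  have h1 : corner (mat (fun s => c * x s)) i j =
      (c • (1 : Matrix {a : Fin N // a.1 < i} {a : Fin N // a.1 < i} ℂ)) * corner (mat x) i j := by
    rw [Matrix.smul_mul, Matrix.one_mul]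
    rfl
  rw [h1]
  exact le_trans (Matrix.rank_mul_le_right _ _) (hx i j)

theorem th_C (N : ℕ) (r : ℂ) : th N (C r) = C r := by
  unfold th
  rw [aeval_C]
  rfl

theorem th_00 (N : ℕ) : th N (X s(0, 0)) = 1 := by
  unfold th
  rw [aeval_X]
  rfl

theorem th_0s (N : ℕ) (j : Fin N) : th N (X s(0, j.succ)) = X (Sum.inl j) := by
  unfold th
  rw [aeval_X]
  rfl

theorem th_ss (N : ℕ) (i j : Fin N) : th N (X s(i.succ, j.succ)) =
    X (Sum.inr s(i, j)) + X (Sum.inl i) * X (Sum.inl j) := by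
  unfold th
  rw [aeval_X]
  rfl

theorem th_van (h : S_SCH) {N : ℕ} (z : Equiv.Perm (Fin N))
    (f : MvPolynomial (Sym2 (Fin (N + 1))) ℂ) (hf : f ∈ vanishingIdeal ℂ (MX (ext z))) :
    th N f ∈ vanishingIdeal ℂ (VE z) := by
  rw [mem_vanishingIdeal_iff] at hf ⊢
  intro v hv
  rw [eval_th]
  exact hf _ ((h N z 1 _ _ one_ne_zero).mpr hv)

section PH

variable {R : Type} [CommRing R] {N : ℕ} (π : MvPolynomial (Sym2 (Fin N)) ℂ →+* R)

/-- the map to the polynomials in `u` over the coordinate ring -/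
noncomputable def PH : MvPolynomial (Sym2 (Fin (N + 1))) ℂ →+* MvPolynomial (Fin N) R :=
  (MvPolynomial.map π).comp ((eta N).toRingHom.comp (th N).toRingHom)

theorem PH_apply (f : MvPolynomial (Sym2 (Fin (N + 1))) ℂ) :
    PH π f = MvPolynomial.map π (eta N (th N f)) := rfl

theorem PH_van (h : S_SCH) (z : Equiv.Perm (Fin N)) (hπ : ∀ f ∈ vanishingIdeal ℂ (MX z), π f = 0)
    (f : MvPolynomial (Sym2 (Fin (N + 1))) ℂ) (hf : f ∈ vanishingIdeal ℂ (MX (ext z))) :
    PH π f = 0 := by
  rw [PH_apply]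
  ext α
  rw [coeff_map, coeff_zero]
  exact hπ _ (coeff_eta z _ (th_van h z f hf) α)

theorem PH_00 : PH π (X s(0, 0)) = 1 := by
  rw [PH_apply, th_00, map_one (eta N), map_one]

theorem PH_surj (hs : Function.Surjective π) : Function.Surjective (PH π) := by
  have hX : ∀ j : Fin N, ∃ f, PH π f = X j := by
    intro j
    refine ⟨X s(0, j.succ), ?_⟩
    rw [PH_apply, th_0s, eta_Xl, map_X]
  have hC : ∀ g : MvPolynomial (Sym2 (Fin N)) ℂ, ∃ f, PH π f = C (π g) := by
    intro g
    induction g using MvPolynomial.induction_on with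
    | C r => exact ⟨C r, by rw [PH_apply, th_C, eta_C, map_C]⟩
    | add p q hp hq =>
      obtain ⟨f, hf⟩ := hp
      obtain ⟨g, hg⟩ := hq
      exact ⟨f + g, by rw [RingHom.map_add (PH π), hf, hg, RingHom.map_add π, C_add]⟩
    | mul_X p s hp =>
      obtain ⟨f, hf⟩ := hp
      induction s using Sym2.ind with
      | _ i j =>
        refine ⟨f * (X s(i.succ, j.succ) - X s(0, i.succ) * X s(0, j.succ)), ?_⟩
        have h1 : th N (X s(i.succ, j.succ) - X s(0, i.succ) * X s(0, j.succ)) =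
            X (Sum.inr s(i, j)) := by
          rw [map_sub, map_mul, th_ss, th_0s, th_0s, add_sub_cancel_right]
        have h2 : PH π (X s(i.succ, j.succ) - X s(0, i.succ) * X s(0, j.succ)) =
            C (π (X s(i, j))) := by
          rw [PH_apply, h1, eta_Xr, map_C]
        rw [RingHom.map_mul (PH π), hf, h2, RingHom.map_mul π, C_mul]
  intro p
  induction p using MvPolynomial.induction_on with
  | C r =>
    obtain ⟨g, rfl⟩ := hs r
    exact hC g
  | add p q hp hq =>
    obtain ⟨f, hf⟩ := hp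
    obtain ⟨g, hg⟩ := hq
    exact ⟨f + g, by rw [map_add, hf, hg]⟩
  | mul_X p s hp =>
    obtain ⟨f, hf⟩ := hp
    obtain ⟨g, hg⟩ := hX s
    exact ⟨f * g, by rw [map_mul, hf, hg]⟩

end PH

section smaller

variable {σ A : Type} [CommRing A] (I : Ideal (MvPolynomial σ ℂ))
  (φ : MvPolynomial σ ℂ →+* A) (hφ : ∀ f ∈ I, φ f = 0)

include hφ in
/-- the smaller prime -/
theorem exists_smaller (hI : ∀ f ∈ I, ∀ k, (scl σ f).coeff k ∈ I) (s₀ : σ) (h1 : φ (X s₀) = 1)
    (p : PrimeSpectrum A) :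
    ∃ q : PrimeSpectrum (MvPolynomial σ ℂ ⧸ I),
      q < PrimeSpectrum.comap (Ideal.Quotient.lift I φ hφ) p := by
  have hp := p.isPrime
  -- the map to the polynomials in `t`
  let ψ : MvPolynomial σ ℂ →+* A ⧸ p.asIdeal := (Ideal.Quotient.mk p.asIdeal).comp φ
  let χ : MvPolynomial σ ℂ →+* Polynomial (A ⧸ p.asIdeal) :=
    (Polynomial.mapRingHom ψ).comp (scl σ)
  have hχ : ∀ f, χ f = (scl σ f).map ψ := fun f => rfl
  have h0 : ∀ f ∈ I, χ f = 0 := by
    intro f hf
    rw [hχ]
    ext k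
    rw [Polynomial.coeff_map, Polynomial.coeff_zero]
    show Ideal.Quotient.mk p.asIdeal (φ ((scl σ f).coeff k)) = 0
    rw [hφ _ (hI f hf k), map_zero]
  let χ' : (MvPolynomial σ ℂ ⧸ I) →+* Polynomial (A ⧸ p.asIdeal) := Ideal.Quotient.lift I χ h0
  refine ⟨⟨RingHom.ker χ', RingHom.ker_isPrime χ'⟩, ?_⟩
  rw [← PrimeSpectrum.asIdeal_lt_asIdeal, lt_iff_le_not_ge]
  constructor
  · intro r hr
    obtain ⟨f, rfl⟩ := Ideal.Quotient.mk_surjective r
    have h2 : χ f = 0 := hr
    rw [hχ] at h2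
    have h3 := congrArg (Polynomial.eval (ψ 1)) h2
    rw [Polynomial.eval_map_apply, scl_one, Polynomial.eval_zero] at h3
    have h4 : Ideal.Quotient.mk p.asIdeal (φ f) = 0 := h3
    rw [Ideal.Quotient.eq_zero_iff_mem] at h4
    exact h4
  · intro hle
    have h2 : Ideal.Quotient.mk I (X s₀ - 1) ∈
        (PrimeSpectrum.comap (Ideal.Quotient.lift I φ hφ) p).asIdeal := by
      show φ (X s₀ - 1) ∈ p.asIdeal
      rw [map_sub, map_one, h1, sub_self]
      exact zero_mem _
    have h3 : χ (X s₀ - 1) = 0 := hle h2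
    have h4 : ψ (X s₀) = 1 := by
      show Ideal.Quotient.mk p.asIdeal (φ (X s₀)) = 1
      rw [h1, map_one]
    rw [hχ, map_sub, map_one, scl_X, Polynomial.map_sub, Polynomial.map_mul, Polynomial.map_X,
      Polynomial.map_C, Polynomial.map_one, h4, map_one, mul_one] at h3
    have h5 := congrArg (fun q => Polynomial.coeff q 1) h3
    simp only [Polynomial.coeff_sub, Polynomial.coeff_X_one, Polynomial.coeff_one,
      Polynomial.coeff_zero] at h5
    simp at h5

include hφ in
theorem dim_succ (hI : ∀ f ∈ I, ∀ k, (scl σ f).coeff k ∈ I) (s₀ : σ) (h1 : φ (X s₀) = 1)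
    (hs : Function.Surjective φ) :
    ringKrullDim A + 1 ≤ ringKrullDim (MvPolynomial σ ℂ ⧸ I) := by
  refine krullDim_succ_le (PrimeSpectrum.comap (Ideal.Quotient.lift I φ hφ)) ?_
    (exists_smaller I φ hφ hI s₀ h1)
  apply Monotone.strictMono_of_injective
  · intro p q hpq
    exact Ideal.comap_mono hpq
  · apply PrimeSpectrum.comap_injective_of_surjective
    intro a
    obtain ⟨f, hf⟩ := hs a
    exact ⟨Ideal.Quotient.mk _ f, hf⟩

end smaller

theorem dim_step (h : S_SCH) {R : Type} [CommRing R] {N : ℕ}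
    (π : MvPolynomial (Sym2 (Fin N)) ℂ →+* R) (hs : Function.Surjective π)
    (z : Equiv.Perm (Fin N)) (hπ : ∀ f ∈ vanishingIdeal ℂ (MX z), π f = 0) :
    ringKrullDim R + ((N + 1 : ℕ) : WithBot ℕ∞) ≤ ringKrullDim (CRing (MX (ext z))) := by
  have h1 := ringKrullDim_add_natCard_le_ringKrullDim_mvPolynomial (R := R) (Fin N)
  rw [Nat.card_eq_fintype_card, Fintype.card_fin] at h1
  have h2 : ringKrullDim (MvPolynomial (Fin N) R) + 1 ≤ ringKrullDim (CRing (MX (ext z))) :=
    dim_succ (vanishingIdeal ℂ (MX (ext z))) (PH π) (PH_van π h z hπ)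
      (fun f hf k => scl_coeff _ (fun x hx c => MX_smul _ x hx c) f hf k) s(0, 0) (PH_00 π)
      (PH_surj π hs)
  refine le_trans ?_ h2
  push_cast
  rw [← add_assoc]
  exact add_le_add_left h1 1

theorem cdb (h : S_SCH) : S_CDB := by
  intro N z
  exact dim_step h (Ideal.Quotient.mk (vanishingIdeal ℂ (MX z))) Ideal.Quotient.mk_surjective z
    (fun f hf => Ideal.Quotient.eq_zero_iff_mem.mpr hf)

end Q151.OG
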