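import Pool.Agent.Q151.OG.Stm

set_option autoImplicit false

namespace Q151.OG

open MvPolynomial

section shift

variable {N : ℕ}

theorem coeff_mul_X' {ι : Type} (F : MvPowerSeries ι ℤ) (i : ι) (m : ι →₀ ℕ) :
    MvPowerSeries.coeff m (F * MvPowerSeries.X i) =
      if Finsupp.single i 1 ≤ m then MvPowerSeries.coeff (m - Finsupp.single i 1) F else 0 := by
  rw [MvPowerSeries.X, MvPowerSeries.coeff_mul_monomial]
  split_ifs
  · rw [mul_one]
  · rfl

theorem coeff_X0 (F : MvPowerSeries (Fin (N + 1)) ℤ) (L : ℕ) (κ : Fin N →₀ ℕ) :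
    MvPowerSeries.coeff (Finsupp.cons (L + 1) κ) (F * MvPowerSeries.X 0) =
      MvPowerSeries.coeff (Finsupp.cons L κ) F := by
  rw [coeff_mul_X', if_pos]
  · have h : Finsupp.cons (L + 1) κ - Finsupp.single 0 1 = Finsupp.cons L κ := by
      ext i
      induction i using Fin.cases with
      | zero => simp
      | succ i => simp
    rw [h]
  · rw [Finsupp.single_le_iff, Finsupp.cons_zero]
    omega

theorem coeff_X0' (F : MvPowerSeries (Fin (N + 1)) ℤ) (κ : Fin N →₀ ℕ) :
    MvPowerSeries.coeff (Finsupp.cons 0 κ) (F * MvPowerSeries.X 0) = 0 := by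
  rw [coeff_mul_X', if_neg]
  rw [Finsupp.single_le_iff, Finsupp.cons_zero]
  omega

theorem coeff_Xs (F : MvPowerSeries (Fin (N + 1)) ℤ) (L : ℕ) (κ : Fin N →₀ ℕ) (j : Fin N) :
    MvPowerSeries.coeff (Finsupp.cons L κ) (F * MvPowerSeries.X j.succ) =
      if Finsupp.single j 1 ≤ κ then
        MvPowerSeries.coeff (Finsupp.cons L (κ - Finsupp.single j 1)) F else 0 := by
  rw [coeff_mul_X']
  have h : Finsupp.single j.succ 1 ≤ Finsupp.cons L κ ↔ Finsupp.single j 1 ≤ κ := by
    rw [Finsupp.single_le_iff, Finsupp.single_le_iff, Finsupp.cons_succ]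
  have h' : Finsupp.cons L κ - Finsupp.single j.succ 1 = Finsupp.cons L (κ - Finsupp.single j 1) := by
    ext i
    induction i using Fin.cases with
    | zero =>
      have : (Finsupp.single j.succ 1 : Fin (N + 1) →₀ ℕ) 0 = 0 := by
        rw [Finsupp.single_apply, if_neg (Fin.succ_ne_zero j)]
      simp [this]
    | succ i =>
      simp only [Finsupp.tsub_apply, Finsupp.cons_succ, Finsupp.single_apply, Fin.succ_inj]
  simp only [h, h']

end shift

/-- `a_0 = 1` -/
noncomputable def ev (N : ℕ) : MvPolynomial (Fin (N + 1)) ℤ →ₐ[ℤ] MvPolynomial (Fin N) ℤ :=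
  aeval (Fin.cons 1 X : Fin (N + 1) → MvPolynomial (Fin N) ℤ)

theorem ev_X0 (N : ℕ) : ev N (X 0) = 1 := by
  unfold ev
  rw [aeval_X]
  rfl

theorem ev_Xs (N : ℕ) (j : Fin N) : ev N (X j.succ) = X j := by
  unfold ev
  rw [aeval_X]
  rfl

/-- the sum of two successive slices -/
noncomputable def S {N : ℕ} (F : MvPowerSeries (Fin (N + 1)) ℤ) (L : ℕ) (κ : Fin N →₀ ℕ) : ℤ :=
  MvPowerSeries.coeff (Finsupp.cons (L + 1) κ) F + MvPowerSeries.coeff (Finsupp.cons L κ) F

theorem claimA {N : ℕ} (h : MvPowerSeries (Fin (N + 1)) ℤ) (T : MvPowerSeries (Fin N) ℤ)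
    (hh : ∀ (k : ℕ) (κ : Fin N →₀ ℕ), ∑ i, κ i < k →
      h (Finsupp.cons k κ) = if Even (k + ∑ i, κ i) then T κ else 0)
    (Q : MvPolynomial (Fin (N + 1)) ℤ) : ∀ κ : Fin N →₀ ℕ, ∃ L₀ : ℕ, ∀ L ≥ L₀,
      S ((Q : MvPowerSeries (Fin (N + 1)) ℤ) * h) L κ =
        MvPowerSeries.coeff κ (((ev N Q : MvPolynomial (Fin N) ℤ) : MvPowerSeries (Fin N) ℤ) * T) := by
  induction Q using MvPolynomial.induction_on with
  | C r =>
    intro κ
    refine ⟨∑ i, κ i + 1, fun L hL => ?_⟩
    have h1 := hh (L + 1) κ (by omega)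
    have h2 := hh L κ (by omega)
    unfold S
    have h3 : ev N (C r) = C r := by
      unfold ev
      rw [aeval_C]
      rfl
    rw [h3, coe_C, coe_C, MvPowerSeries.coeff_C_mul, MvPowerSeries.coeff_C_mul,
      MvPowerSeries.coeff_C_mul]
    have e1 : MvPowerSeries.coeff (Finsupp.cons (L + 1) κ) h = h (Finsupp.cons (L + 1) κ) := rfl
    have e2 : MvPowerSeries.coeff (Finsupp.cons L κ) h = h (Finsupp.cons L κ) := rfl
    have e3 : MvPowerSeries.coeff κ T = T κ := rfl
    rw [e1, e2, e3, h1, h2]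
    by_cases hp : Even (L + ∑ i, κ i)
    · have hp' : ¬ Even (L + 1 + ∑ i, κ i) := by
        rw [add_right_comm, Nat.even_add_one, not_not]
        exact hp
      rw [if_neg hp', if_pos hp]
      ring
    · have hp' : Even (L + 1 + ∑ i, κ i) := by
        rw [add_right_comm, Nat.even_add_one]
        exact hp
      rw [if_pos hp', if_neg hp]
      ring
  | add p q hp hq =>
    intro κ
    obtain ⟨L₁, h1⟩ := hp κ
    obtain ⟨L₂, h2⟩ := hq κ
    refine ⟨max L₁ L₂, fun L hL => ?_⟩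
    have h3 := h1 L (le_trans (le_max_left _ _) hL)
    have h4 := h2 L (le_trans (le_max_right _ _) hL)
    rw [map_add, coe_add, coe_add, add_mul, add_mul, map_add, ← h3, ← h4]
    unfold S
    rw [map_add, map_add]
    ring
  | mul_X p i hp =>
    intro κ
    have hm : ev N (p * X i) = ev N p * ev N (X i) := map_mul _ _ _
    rw [hm, coe_mul, coe_X, coe_mul, mul_right_comm (p : MvPowerSeries (Fin (N + 1)) ℤ),
      mul_right_comm ((ev N p : MvPolynomial (Fin N) ℤ) : MvPowerSeries (Fin N) ℤ)]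
    induction i using Fin.cases with
    | zero =>
      obtain ⟨L₀, h1⟩ := hp κ
      refine ⟨L₀ + 1, fun L hL => ?_⟩
      obtain ⟨L', rfl⟩ : ∃ L', L = L' + 1 := ⟨L - 1, by omega⟩
      rw [ev_X0, coe_one, mul_one, ← h1 L' (by omega)]
      unfold S
      rw [coeff_X0, coeff_X0]
    | succ j =>
      obtain ⟨L₀, h1⟩ := hp (κ - Finsupp.single j 1)
      refine ⟨L₀, fun L hL => ?_⟩
      rw [ev_Xs, coe_X, coeff_mul_X']
      unfold S
      rw [coeff_Xs, coeff_Xs]
      split_ifs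
      · exact h1 L hL
      · rfl

theorem claimB {N : ℕ} (K : MvPolynomial (Fin (N + 1)) ℤ) : ∀ κ : Fin N →₀ ℕ, ∃ L₀ : ℕ, ∀ L ≥ L₀,
    MvPowerSeries.coeff κ ((ev N K : MvPolynomial (Fin N) ℤ) : MvPowerSeries (Fin N) ℤ) =
      ∑ k ∈ Finset.range L, MvPowerSeries.coeff (Finsupp.cons k κ)
        (K : MvPowerSeries (Fin (N + 1)) ℤ) := by
  induction K using MvPolynomial.induction_on with
  | C r =>
    intro κ
    refine ⟨1, fun L hL => ?_⟩
    have h3 : ev N (C r) = C r := by
      unfold ev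
      rw [aeval_C]
      rfl
    rw [h3, coe_C, coe_C]
    have h1 : ∀ k ∈ Finset.range L, MvPowerSeries.coeff (Finsupp.cons k κ)
        (MvPowerSeries.C r : MvPowerSeries (Fin (N + 1)) ℤ) =
          if k = 0 then (if κ = 0 then r else 0) else 0 := by
      intro k _
      rw [MvPowerSeries.coeff_C]
      by_cases hk : k = 0
      · subst hk
        rw [if_pos rfl]
        by_cases hκ : κ = 0
        · subst hκ
          rw [Finsupp.cons_zero_zero]
          simp
        · rw [if_neg (Finsupp.cons_ne_zero_of_right hκ), if_neg hκ]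
      · rw [if_neg hk, if_neg (Finsupp.cons_ne_zero_of_left hk)]
    rw [Finset.sum_congr rfl h1, Finset.sum_ite_eq', if_pos (Finset.mem_range.mpr hL),
      MvPowerSeries.coeff_C]
  | add p q hp hq =>
    intro κ
    obtain ⟨L₁, h1⟩ := hp κ
    obtain ⟨L₂, h2⟩ := hq κ
    refine ⟨max L₁ L₂, fun L hL => ?_⟩
    have h3 := h1 L (le_trans (le_max_left _ _) hL)
    have h4 := h2 L (le_trans (le_max_right _ _) hL)
    rw [map_add, coe_add, map_add, h3, h4, ← Finset.sum_add_distrib]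
    refine Finset.sum_congr rfl fun k _ => ?_
    rw [coe_add, map_add]
  | mul_X p i hp =>
    intro κ
    have hm : ev N (p * X i) = ev N p * ev N (X i) := map_mul _ _ _
    rw [hm, coe_mul]
    induction i using Fin.cases with
    | zero =>
      obtain ⟨L₀, h1⟩ := hp κ
      refine ⟨L₀ + 1, fun L hL => ?_⟩
      obtain ⟨L', rfl⟩ : ∃ L', L = L' + 1 := ⟨L - 1, by omega⟩
      rw [ev_X0, coe_one, mul_one, h1 L' (by omega), Finset.sum_range_succ']
      rw [coe_mul, coe_X, coeff_X0', add_zero]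
      refine Finset.sum_congr rfl fun k _ => ?_
      rw [coeff_X0]
    | succ j =>
      obtain ⟨L₀, h1⟩ := hp (κ - Finsupp.single j 1)
      refine ⟨L₀, fun L hL => ?_⟩
      rw [ev_Xs, coe_X, coeff_mul_X', h1 L hL]
      rw [coe_mul, coe_X]
      simp only [coeff_Xs]
      split_ifs
      · rfl
      · rw [Finset.sum_const_zero]

/-- telescoping -/
theorem tele {N : ℕ} (G : MvPowerSeries (Fin (N + 1)) ℤ) (κ : Fin N →₀ ℕ) (L : ℕ) :
    ∑ k ∈ Finset.range (L + 2), MvPowerSeries.coeff (Finsupp.cons k κ)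
      (G * (1 - MvPowerSeries.X 0 * MvPowerSeries.X 0)) = S G L κ := by
  have key : ∀ k, MvPowerSeries.coeff (Finsupp.cons (k + 2) κ)
      (G * (1 - MvPowerSeries.X 0 * MvPowerSeries.X 0)) =
      MvPowerSeries.coeff (Finsupp.cons (k + 2) κ) G - MvPowerSeries.coeff (Finsupp.cons k κ) G := by
    intro k
    rw [mul_sub, mul_one, map_sub, ← mul_assoc, coeff_X0, coeff_X0]
  induction L with
  | zero =>
    rw [Finset.sum_range_succ, Finset.sum_range_one]
    unfold S
    rw [mul_sub, mul_one, map_sub, map_sub, ← mul_assoc, coeff_X0', coeff_X0, coeff_X0']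
    ring
  | succ L ih =>
    rw [Finset.sum_range_succ, ih, key]
    unfold S
    ring

theorem mon_wt {N : ℕ} (i j : Fin N) :
    (monomial (wt s(i, j)) (1 : ℤ)) = (X i * X j : MvPolynomial (Fin N) ℤ) := by
  show monomial (Finsupp.single i 1 + Finsupp.single j 1) (1 : ℤ) = X i * X j
  rw [X, X, monomial_mul, one_mul]

theorem ev_mon {N : ℕ} (s : Sym2 (Fin N)) :
    ev N (monomial (wt (s.map Fin.succ)) (1 : ℤ)) = monomial (wt s) 1 := by
  induction s using Sym2.ind with
  | _ i j =>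
    rw [Sym2.map_mk, mon_wt, mon_wt, map_mul, ev_Xs, ev_Xs]

theorem eva (hP : S_PRD) : S_EVA := by
  intro N h T K hh hK
  show ((ev N K : MvPolynomial (Fin N) ℤ) : MvPowerSeries (Fin N) ℤ) = _
  -- factorisation of the denominator
  set Q : MvPolynomial (Fin (N + 1)) ℤ := (∏ j : Fin N, (1 - X 0 * X j.succ)) *
    ∏ s : Sym2 (Fin N), (1 - monomial (wt (s.map Fin.succ)) 1) with hQ
  have hden : den (wt (N := N + 1)) = (1 - X 0 * X 0) * Q := by
    unfold den
    rw [hP (MvPolynomial (Fin (N + 1)) ℤ) N, hQ, mon_wt, mul_assoc]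
    congr 2
    refine Finset.prod_congr rfl fun j _ => ?_
    rw [mon_wt]
  have hevQ : ev N Q = (∏ j : Fin N, (1 - X j)) * den (wt (N := N)) := by
    rw [hQ, map_mul, map_prod, map_prod]
    unfold den
    congr 1
    · refine Finset.prod_congr rfl fun j _ => ?_
      rw [map_sub, map_one, map_mul, ev_X0, ev_Xs, one_mul]
    · refine Finset.prod_congr rfl fun s _ => ?_
      rw [map_sub, map_one, ev_mon]
  have hfac : (K : MvPowerSeries (Fin (N + 1)) ℤ) = ((Q : MvPowerSeries (Fin (N + 1)) ℤ) * h) *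
      (1 - MvPowerSeries.X 0 * MvPowerSeries.X 0) := by
    rw [hK, hden, coe_mul]
    have h1 : (((1 - X 0 * X 0 : MvPolynomial (Fin (N + 1)) ℤ)) : MvPowerSeries (Fin (N + 1)) ℤ) =
        1 - MvPowerSeries.X 0 * MvPowerSeries.X 0 := by
      have h2 : ((1 - X 0 * X 0 : MvPolynomial (Fin (N + 1)) ℤ)) + X 0 * X 0 = 1 := by ring
      have h3 := congrArg (fun p : MvPolynomial (Fin (N + 1)) ℤ =>
        (p : MvPowerSeries (Fin (N + 1)) ℤ)) h2
      simp only [coe_add, coe_mul, coe_X, coe_one] at h3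
      rw [← h3]
      ring
    rw [h1]
    ring
  have hprod : ((∏ j : Fin N, (1 - X j) : MvPolynomial (Fin N) ℤ) : MvPowerSeries (Fin N) ℤ) =
      ∏ j : Fin N, (1 - MvPowerSeries.X j) := by
    rw [← coeToMvPowerSeries.ringHom_apply, map_prod]
    refine Finset.prod_congr rfl fun j _ => ?_
    rw [map_sub, map_one, coeToMvPowerSeries.ringHom_apply, coe_X]
  ext κ
  obtain ⟨L₁, h1⟩ := claimA h T hh Q κ
  obtain ⟨L₂, h2⟩ := claimB K κ
  have h3 := h1 (max L₁ L₂) (le_max_left _ _)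
  have h4 := h2 (max L₁ L₂ + 2) (by omega)
  rw [h4, hfac, tele, h3, hevQ, coe_mul, hprod]
  congr 1
  ring

end Q151.OG
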