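import Pool.Agent.Q151.OG.HON

set_option autoImplicit false

namespace Q151.OG

open MvPolynomial

theorem wt_map {N M : ℕ} (σ : Fin N → Fin M) (s : Sym2 (Fin N)) :
    wt (s.map σ) = Finsupp.mapDomain σ (wt s) := by
  induction s using Sym2.ind with
  | _ i j =>
    rw [Sym2.map_mk]
    show Finsupp.single (σ i) 1 + Finsupp.single (σ j) 1 =
      Finsupp.mapDomain σ (Finsupp.single i 1 + Finsupp.single j 1)
    rw [Finsupp.mapDomain_add, Finsupp.mapDomain_single, Finsupp.mapDomain_single]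

/-- the renaming of the entries maps weight `μ` to weight `σ μ` -/
theorem whom_rename {N : ℕ} (σ : Equiv.Perm (Fin N)) (μ : Fin N →₀ ℕ)
    (f : MvPolynomial (Sym2 (Fin N)) ℂ) (hf : f ∈ weightedHomogeneousSubmodule ℂ wt μ) :
    rename (Sym2.map σ) f ∈ weightedHomogeneousSubmodule ℂ wt (Finsupp.mapDomain σ μ) := by
  rw [mem_weightedHomogeneousSubmodule] at hf ⊢
  intro d hd
  obtain ⟨u, hu, hu'⟩ := coeff_rename_ne_zero _ _ _ hd
  rw [← hu, ← hf hu', Finsupp.weight_apply, Finsupp.weight_apply,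
    Finsupp.sum_mapDomain_index (by intro s; rw [zero_smul]) (by intro s a b; rw [add_smul])]
  rw [Finsupp.sum, Finsupp.sum]
  have := map_sum (Finsupp.mapDomain.addMonoidHom (σ : Fin N → Fin N) (M := ℕ))
    (fun s => u s • wt s) u.support
  have h2 : Finsupp.mapDomain σ (∑ s ∈ u.support, u s • wt s) =
      ∑ s ∈ u.support, Finsupp.mapDomain σ (u s • wt s) := this
  rw [h2]
  refine Finset.sum_congr rfl fun s _ => ?_
  rw [wt_map, Finsupp.mapDomain_smul]

theorem perm_fix {N m : ℕ} (σ : Equiv.Perm (Fin N)) (hσ : ∀ i : Fin N, m ≤ i.1 → σ i = i) :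
    ∀ i : Fin N, m ≤ i.1 → σ.symm i = i := by
  intro i hi
  rw [Equiv.symm_apply_eq, hσ i hi]

theorem van_rename {N : ℕ} (σ : Equiv.Perm (Fin N)) (V : Set (Sym2 (Fin N) → ℂ))
    (hV : ∀ x ∈ V, (fun s => x (s.map σ)) ∈ V) (f : MvPolynomial (Sym2 (Fin N)) ℂ)
    (hf : f ∈ vanishingIdeal ℂ V) : rename (Sym2.map σ) f ∈ vanishingIdeal ℂ V := by
  rw [mem_vanishingIdeal_iff] at hf ⊢
  intro x hx
  rw [aeval_rename]
  exact hf _ (hV x hx)

theorem rename_symm {N : ℕ} (σ : Equiv.Perm (Fin N)) (f : MvPolynomial (Sym2 (Fin N)) ℂ) :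
    rename (Sym2.map σ) (rename (Sym2.map σ.symm) f) = f := by
  rw [rename_rename]
  have : (Sym2.map σ ∘ Sym2.map σ.symm : Sym2 (Fin N) → Sym2 (Fin N)) = id := by
    funext s
    rw [Function.comp_apply, Sym2.map_map]
    have h : (σ ∘ σ.symm : Fin N → Fin N) = id := by
      funext i
      simp
    rw [h, Sym2.map_id]
  rw [this, rename_id]
  rfl

theorem hilb_symm {N : ℕ} (σ : Equiv.Perm (Fin N)) (V : Set (Sym2 (Fin N) → ℂ))
    (hV : ∀ x ∈ V, (fun s => x (s.map σ)) ∈ V) (hV' : ∀ x ∈ V, (fun s => x (s.map σ.symm)) ∈ V)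
    (μ : Fin N →₀ ℕ) : hilb wt V (Finsupp.mapDomain σ μ) = hilb wt V μ := by
  have h1 : weightedHomogeneousSubmodule ℂ wt (Finsupp.mapDomain σ μ) =
      (weightedHomogeneousSubmodule ℂ wt μ).map
        (rename (Sym2.map σ) : MvPolynomial (Sym2 (Fin N)) ℂ →ₐ[ℂ] _).toLinearMap := by
    apply le_antisymm
    · intro f hf
      refine ⟨rename (Sym2.map σ.symm) f, ?_, rename_symm σ f⟩
      have h2 := whom_rename σ.symm _ f hf
      rw [← Finsupp.mapDomain_comp] at h2
      have h : (σ.symm ∘ σ : Fin N → Fin N) = id := by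
        funext i
        simp
      rw [h, Finsupp.mapDomain_id] at h2
      exact h2
    · rintro _ ⟨f, hf, rfl⟩
      exact whom_rename σ μ f hf
  unfold hilb
  rw [h1, ← Submodule.map_comp]
  apply finrank_map_of_ker
  intro f _
  rw [LinearMap.comp_apply, mk_eq_zero, mk_eq_zero]
  constructor
  · intro hf
    have h3 := van_rename σ.symm V hV' _ hf
    have h4 : rename (Sym2.map σ.symm) (rename (Sym2.map σ) f) = f := rename_symm σ.symm f
    have h5 : (rename (Sym2.map σ) : MvPolynomial (Sym2 (Fin N)) ℂ →ₐ[ℂ] _).toLinearMap f =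
      rename (Sym2.map σ) f := rfl
    rw [h5, h4] at h3
    exact h3
  · intro hf
    exact van_rename σ V hV _ hf

/-- the permutation of the unordered pairs -/
def symE {N : ℕ} (σ : Equiv.Perm (Fin N)) : Equiv.Perm (Sym2 (Fin N)) where
  toFun := Sym2.map σ
  invFun := Sym2.map σ.symm
  left_inv s := by
    rw [Sym2.map_map]
    have h : (σ.symm ∘ σ : Fin N → Fin N) = id := by
      funext i
      simp
    rw [h, Sym2.map_id]
    rfl
  right_inv s := by
    rw [Sym2.map_map]
    have h : (σ ∘ σ.symm : Fin N → Fin N) = id := by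
      funext i
      simp
    rw [h, Sym2.map_id]
    rfl

theorem den_symm {N : ℕ} (σ : Equiv.Perm (Fin N)) :
    rename σ (den (wt (N := N))) = den (wt (N := N)) := by
  unfold den
  rw [map_prod]
  refine Fintype.prod_equiv (symE σ) _ _ fun s => ?_
  rw [map_sub, map_one, rename_monomial]
  have : symE σ s = s.map σ := rfl
  rw [this, wt_map]

theorem syb (h : S_SYA) : S_SYB := by
  intro N m z hz σ hσ K hK
  have hV := h N m z hz σ hσ
  have hV' := h N m z hz σ.symm (perm_fix σ hσ)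
  have hr : MvPowerSeries.rename (σ.toEmbedding : Fin N → Fin N) (hser wt (MX z)) =
      hser wt (MX z) := by
    ext μ
    have h1 : μ = Finsupp.embDomain σ.toEmbedding (Finsupp.mapDomain σ.symm μ) := by
      rw [Finsupp.embDomain_eq_mapDomain]
      show μ = Finsupp.mapDomain σ (Finsupp.mapDomain σ.symm μ)
      rw [← Finsupp.mapDomain_comp]
      have h : (σ ∘ σ.symm : Fin N → Fin N) = id := by
        funext i
        simp
      rw [h, Finsupp.mapDomain_id]
    conv_lhs => rw [h1]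
    rw [MvPowerSeries.coeff_embDomain_rename]
    show ((hilb wt (MX z) (Finsupp.mapDomain σ.symm μ) : ℕ) : ℤ) = (hilb wt (MX z) μ : ℤ)
    rw [hilb_symm σ.symm (MX z) hV' hV μ]
  apply coe_injective
  have hK' : (K : MvPowerSeries (Fin N) ℤ) =
    hser wt (MX z) * (den (wt (N := N)) : MvPowerSeries (Fin N) ℤ) := hK
  show ((rename σ K : MvPolynomial (Fin N) ℤ) : MvPowerSeries (Fin N) ℤ) = K
  have h2 := MvPowerSeries.rename_coe (σ.toEmbedding : Fin N → Fin N) K
  have h3 := MvPowerSeries.rename_coe (σ.toEmbedding : Fin N → Fin N) (den (wt (N := N)))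
  have h4 : rename (σ.toEmbedding : Fin N → Fin N) (den (wt (N := N))) = den (wt (N := N)) :=
    den_symm σ
  have h5 : rename (σ.toEmbedding : Fin N → Fin N) K = rename σ K := rfl
  rw [← h5, ← h2, hK', map_mul, hr, h3, h4]

end Q151.OG
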