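import Pool.Agent.Q151.OG.Stm

set_option autoImplicit false

namespace Q151.OG

open MvPolynomial

theorem coeff_cons_zero {N : ℕ} (F : MvPolynomial (Fin (N + 1)) ℤ) : ∀ γ : Fin N →₀ ℕ,
    coeff γ (aeval (Fin.cons 0 X : Fin (N + 1) → MvPolynomial (Fin N) ℤ) F) =
      coeff (Finsupp.cons 0 γ) F := by
  induction F using MvPolynomial.induction_on with
  | C r =>
    intro γ
    rw [aeval_C]
    show coeff γ (C r) = _
    rw [coeff_C, coeff_C]
    by_cases h : γ = 0
    · subst h
      rw [Finsupp.cons_zero_zero]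
      simp
    · rw [if_neg (fun h' => h h'.symm), if_neg (fun h' => Finsupp.cons_ne_zero_of_right h h'.symm)]
  | add p q hp hq =>
    intro γ
    rw [map_add, coeff_add, coeff_add, hp, hq]
  | mul_X p i hp =>
    intro γ
    rw [map_mul, aeval_X, coeff_mul_X']
    induction i using Fin.cases with
    | zero =>
      rw [Fin.cons_zero, mul_zero, coeff_zero, if_neg]
      rw [Finsupp.mem_support_iff, Finsupp.cons_zero]
      simp
    | succ j =>
      rw [Fin.cons_succ, coeff_mul_X', hp]
      have h1 : j.succ ∈ (Finsupp.cons 0 γ).support ↔ j ∈ γ.support := by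
        rw [Finsupp.mem_support_iff, Finsupp.mem_support_iff, Finsupp.cons_succ]
      have h2 : Finsupp.cons 0 γ - Finsupp.single j.succ 1 =
          Finsupp.cons 0 (γ - Finsupp.single j 1) := by
        ext i
        induction i using Fin.cases with
        | zero =>
          have : (Finsupp.single j.succ 1 : Fin (N + 1) →₀ ℕ) 0 = 0 := by
            rw [Finsupp.single_apply, if_neg (Fin.succ_ne_zero j)]
          simp [this]
        | succ i =>
          simp only [Finsupp.tsub_apply, Finsupp.cons_succ, Finsupp.single_apply, Fin.succ_inj]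
      simp only [h1, h2]

theorem tay : S_TAY := by
  intro N l K K' hl hK hs γ hγ
  -- the two polynomials at `1 + X`
  set F' : MvPolynomial (Fin (N + 1)) ℤ := aeval (fun i => 1 + X i :
      Fin (N + 1) → MvPolynomial (Fin (N + 1)) ℤ) K' with hF'
  set F : MvPolynomial (Fin N) ℤ := aeval (fun i => 1 + X i : Fin N → MvPolynomial (Fin N) ℤ) K
    with hF
  have h1 : F = aeval (Fin.cons 0 X : Fin (N + 1) → MvPolynomial (Fin N) ℤ) F' := by
    rw [hF, hF', ← hK, ← AlgHom.comp_apply, ← AlgHom.comp_apply]
    congr 1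
    apply algHom_ext
    intro i
    rw [AlgHom.comp_apply, AlgHom.comp_apply, aeval_X, aeval_X]
    induction i using Fin.cases with
    | zero => rw [Fin.cons_zero, map_one, map_add, map_one, aeval_X, Fin.cons_zero, add_zero]
    | succ j => rw [Fin.cons_succ, aeval_X, map_add, map_one, aeval_X, Fin.cons_succ]
  have h2 : ∀ σ : Equiv.Perm (Fin (N + 1)), (∀ i, l < i.1 → σ i = i) → rename σ F' = F' := by
    intro σ hσ
    have h3 := hs σ hσ
    rw [hF']
    conv_rhs => rw [← h3]
    rw [aeval_rename, ← AlgHom.comp_apply]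
    congr 1
    apply algHom_ext
    intro i
    rw [AlgHom.comp_apply, aeval_X, map_add, map_one, rename_X, aeval_X]
    rfl
  -- the exponent
  have hinj : ∀ M : ℕ, Function.Injective (Fin.val : Fin M → ℕ) := fun M => Fin.val_injective
  set γ₀ : Fin N →₀ ℕ := γ.comapDomain Fin.val ((hinj N).injOn) with hγ₀
  set γ₁ : Fin (N + 1) →₀ ℕ := γ.comapDomain Fin.val ((hinj (N + 1)).injOn) with hγ₁
  have g0 : Finsupp.mapDomain Fin.val γ₀ = γ := by
    rw [hγ₀]
    apply Finsupp.mapDomain_comapDomain _ (hinj N)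
    intro i hi
    exact ⟨⟨i, lt_of_lt_of_le (hγ i hi) hl⟩, rfl⟩
  have g1 : Finsupp.mapDomain Fin.val γ₁ = γ := by
    rw [hγ₁]
    apply Finsupp.mapDomain_comapDomain _ (hinj (N + 1))
    intro i hi
    exact ⟨⟨i, lt_of_lt_of_le (hγ i hi) (by omega)⟩, rfl⟩
  have hz : ∀ i, l ≤ i → γ i = 0 := by
    intro i hi
    by_contra hne
    have := hγ i (Finsupp.mem_support_iff.mpr hne)
    omega
  have a0 : ∀ i : Fin N, γ₀ i = γ i.1 := fun i => rfl
  have a1 : ∀ i : Fin (N + 1), γ₁ i = γ i.1 := fun i => rfl
  set σ : Equiv.Perm (Fin (N + 1)) := Fin.cycleRange ⟨l, by omega⟩ with hσ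
  have hfix : ∀ i, l < i.1 → σ i = i := by
    intro i hi
    rw [hσ]
    exact Fin.cycleRange_of_gt hi
  have hmap : Finsupp.mapDomain σ γ₁ = Finsupp.cons 0 γ₀ := by
    ext j
    have h3 : Finsupp.mapDomain σ γ₁ j = γ₁ (σ.symm j) := by
      conv_lhs => rw [← σ.apply_symm_apply j]
      exact Finsupp.mapDomain_apply σ.injective _ _
    rw [h3, a1]
    induction j using Fin.cases with
    | zero =>
      rw [Finsupp.cons_zero]
      have : σ.symm 0 = ⟨l, by omega⟩ := by
        rw [Equiv.symm_apply_eq, hσ, Fin.cycleRange_self]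
      rw [this]
      exact hz l le_rfl
    | succ i =>
      rw [Finsupp.cons_succ, a0]
      by_cases hi : i.1 < l
      · have : σ.symm i.succ = i.castSucc := by
          rw [Equiv.symm_apply_eq, hσ, Fin.cycleRange_of_lt]
          · ext
            simp
          · exact hi
        rw [this]
        rfl
      · have : σ.symm i.succ = i.succ := by
          rw [Equiv.symm_apply_eq, hfix]
          show l < i.1 + 1
          omega
        rw [this, hz _ (by show l ≤ i.1 + 1; omega), hz _ (by omega)]
  conv_lhs => rw [← g1]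
  conv_rhs => rw [← g0]
  rw [coeff_rename_mapDomain _ (hinj _), coeff_rename_mapDomain _ (hinj _), h1,
    coeff_cons_zero, ← hmap]
  conv_rhs => rw [← h2 σ hfix]
  rw [coeff_rename_mapDomain _ σ.injective]

end Q151.OG
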