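import Pool.Agent.Q151.OG.Def

/-!
# Statements of the lemmas (project OG, MP_163e4a_co)
-/

set_option autoImplicit false

namespace Q151.OG

open MvPolynomial

/-- `1 × z` -/
def ext {N : ℕ} (z : Equiv.Perm (Fin N)) : Equiv.Perm (Fin (N + 1)) :=
  Equiv.Perm.decomposeFin.symm (0, z)

/-- the Schur complement of the entry `(0, 0)` -/
noncomputable def schur {N : ℕ} (x : Sym2 (Fin (N + 1)) → ℂ) : Sym2 (Fin N) → ℂ :=
  Sym2.lift ⟨fun i j => x s(i.succ, j.succ) - x s(0, i.succ) * x s(0, j.succ) / x s(0, 0), by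
    intro i j
    show x s(i.succ, j.succ) - x s(0, i.succ) * x s(0, j.succ) / x s(0, 0) =
      x s(j.succ, i.succ) - x s(0, j.succ) * x s(0, i.succ) / x s(0, 0)
    rw [Sym2.eq_swap, mul_comm]⟩

/-- the symmetric matrix with the entry `a` in the place `(0, 0)`, first row `u` and Schur complement
`y` -/
noncomputable def blow {N : ℕ} (a : ℂ) (u : Fin N → ℂ) (y : Sym2 (Fin N) → ℂ) :
    Sym2 (Fin (N + 1)) → ℂ :=
  Sym2.lift ⟨fun i j => Fin.cases (Fin.cases a (fun j => u j) j)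
    (fun i => Fin.cases (u i) (fun j => y s(i, j) + u i * u j / a) j) i, by
      intro i j
      induction i using Fin.cases with
      | zero => induction j using Fin.cases with
        | zero => rfl
        | succ j => rfl
      | succ i => induction j using Fin.cases with
        | zero => rfl
        | succ j =>
          show y s(i, j) + u i * u j / a = y s(j, i) + u j * u i / a
          rw [Sym2.eq_swap, mul_comm]⟩

/-- SCH: rank conditions and Schur complements -/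
def S_SCH : Prop := ∀ (N : ℕ) (z : Equiv.Perm (Fin N)) (a : ℂ) (u : Fin N → ℂ)
  (y : Sym2 (Fin N) → ℂ), a ≠ 0 → (blow a u y ∈ MX (ext z) ↔ y ∈ MX z)

/-- SCI: every matrix with nonzero entry `(0, 0)` is of the form `blow` -/
def S_SCI : Prop := ∀ (N : ℕ) (x : Sym2 (Fin (N + 1)) → ℂ), x s(0, 0) ≠ 0 →
  blow (x s(0, 0)) (fun j => x s(0, j.succ)) (schur x) = x

/-- the substitution `A_00 = 1`, `A_0j = u_j`, `A_ij = y_ij + u_i u_j` -/
noncomputable def th (N : ℕ) :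
    MvPolynomial (Sym2 (Fin (N + 1))) ℂ →ₐ[ℂ] MvPolynomial (Fin N ⊕ Sym2 (Fin N)) ℂ :=
  aeval (Sym2.lift ⟨fun i j => Fin.cases (Fin.cases 1 (fun j => X (Sum.inl j)) j)
    (fun i => Fin.cases (X (Sum.inl i))
      (fun j => X (Sum.inr s(i, j)) + X (Sum.inl i) * X (Sum.inl j)) j) i, by
      intro i j
      induction i using Fin.cases with
      | zero => induction j using Fin.cases with
        | zero => rfl
        | succ j => rfl
      | succ i => induction j using Fin.cases with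
        | zero => rfl
        | succ j =>
          show (X (Sum.inr s(i, j)) + X (Sum.inl i) * X (Sum.inl j) :
            MvPolynomial (Fin N ⊕ Sym2 (Fin N)) ℂ) = X (Sum.inr s(j, i)) +
              X (Sum.inl j) * X (Sum.inl i)
          rw [Sym2.eq_swap, mul_comm]⟩)

/-- weights on the product with an affine space -/
noncomputable def wE {N : ℕ} : Fin N ⊕ Sym2 (Fin N) → (Fin N →₀ ℕ) :=
  Sum.elim (fun j => Finsupp.single j 1) wt

/-- `ℂ ^ N × MX_z` -/
def VE {N : ℕ} (z : Equiv.Perm (Fin N)) : Set (Fin N ⊕ Sym2 (Fin N) → ℂ) :=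
  {y | (fun s => y (Sum.inr s)) ∈ MX z}

/-- KER -/
def S_KER : Prop := ∀ (N : ℕ) (z : Equiv.Perm (Fin N)) (k : ℕ) (κ : Fin N →₀ ℕ),
  ∑ i, κ i < k → ∀ f ∈ weightedHomogeneousSubmodule ℂ (wt (N := N + 1)) (Finsupp.cons k κ),
    f ∈ vanishingIdeal ℂ (MX (ext z)) ↔ th N f ∈ vanishingIdeal ℂ (VE z)

/-- IMG -/
def S_IMG : Prop := ∀ (N k : ℕ) (κ : Fin N →₀ ℕ), ∑ i, κ i ≤ k →
  (weightedHomogeneousSubmodule ℂ (wt (N := N + 1)) (Finsupp.cons k κ)).map (th N).toLinearMap =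
    if Even (k + ∑ i, κ i) then weightedHomogeneousSubmodule ℂ wE κ else ⊥

/-- HON: the Hilbert function for large first degree (from KER and IMG) -/
def S_HON : Prop := ∀ (N : ℕ) (z : Equiv.Perm (Fin N)) (k : ℕ) (κ : Fin N →₀ ℕ),
  ∑ i, κ i < k → hilb wt (MX (ext z)) (Finsupp.cons k κ) =
    if Even (k + ∑ i, κ i) then hilb wE (VE z) κ else 0

/-- FRO: one free variable -/
def S_FRO : Prop := ∀ (σ ι : Type) [Finite σ] (w : Option σ → (ι →₀ ℕ)), (∀ s, w s ≠ 0) →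
  ∀ V : Set (σ → ℂ), hser w {y : Option σ → ℂ | (fun s => y (some s)) ∈ V} *
    (1 - MvPowerSeries.monomial (w none) 1) = hser (fun s => w (some s)) V

/-- FRE: free variables (from FRO by induction) -/
def S_FRE : Prop := ∀ (σ ι τ : Type) [Finite σ] [Fintype τ] (w : σ → (ι →₀ ℕ))
  (u : τ → (ι →₀ ℕ)), (∀ s, w s ≠ 0) → (∀ t, u t ≠ 0) → ∀ V : Set (σ → ℂ),
  hser (Sum.elim u w) {y : τ ⊕ σ → ℂ | (fun s => y (Sum.inr s)) ∈ V} *
    ∏ t : τ, (1 - MvPowerSeries.monomial (u t) 1) = hser w V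

/-- PRD: products over unordered pairs -/
def S_PRD : Prop := ∀ (M : Type) [CommMonoid M] (N : ℕ) (f : Sym2 (Fin (N + 1)) → M),
  ∏ s, f s = f s(0, 0) * (∏ j : Fin N, f s(0, j.succ)) *
    ∏ s : Sym2 (Fin N), f (s.map Fin.succ)

/-- EVA: the `K`-polynomial at `a_0 = 1` from the Hilbert function for large first degree -/
def S_EVA : Prop := ∀ (N : ℕ) (h : MvPowerSeries (Fin (N + 1)) ℤ) (T : MvPowerSeries (Fin N) ℤ)
  (K : MvPolynomial (Fin (N + 1)) ℤ),
  (∀ (k : ℕ) (κ : Fin N →₀ ℕ), ∑ i, κ i < k →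
    h (Finsupp.cons k κ) = if Even (k + ∑ i, κ i) then T κ else 0) →
  (K : MvPowerSeries (Fin (N + 1)) ℤ) = h * (den (wt (N := N + 1)) : MvPowerSeries _ ℤ) →
  ((aeval (Fin.cons 1 X : Fin (N + 1) → MvPolynomial (Fin N) ℤ) K : MvPolynomial (Fin N) ℤ) :
    MvPowerSeries (Fin N) ℤ) =
      T * (∏ j : Fin N, (1 - MvPowerSeries.X j)) * (den (wt (N := N)) : MvPowerSeries _ ℤ)

/-- EXA: standard monomials: dimension of the part of weight `μ` of a quotient -/
def S_EXA : Prop := ∀ (σ ι : Type) [Finite σ] (w : σ → (ι →₀ ℕ)), (∀ s, w s ≠ 0) →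
  ∀ V : Set (σ → ℂ), ∃ U : Set (σ →₀ ℕ), IsUpperSet U ∧
    ∀ μ, hilb w V μ = Nat.card {m : σ →₀ ℕ // Finsupp.weight w m = μ ∧ m ∉ U}

/-- the generating function of the complement of a set of monomials -/
noncomputable def cser {σ ι : Type} (w : σ → (ι →₀ ℕ)) (U : Set (σ →₀ ℕ)) : MvPowerSeries ι ℤ :=
  fun μ => (Nat.card {m : σ →₀ ℕ // Finsupp.weight w m = μ ∧ m ∉ U} : ℤ)

/-- EXB: the generating function of the complement of an upper set -/
def S_EXB : Prop := ∀ (σ ι : Type) [Fintype σ] (w : σ → (ι →₀ ℕ)), (∀ s, w s ≠ 0) →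
  ∀ U : Set (σ →₀ ℕ), IsUpperSet U → ∃ K : MvPolynomial ι ℤ,
    (K : MvPowerSeries ι ℤ) = cser w U * (den w : MvPowerSeries ι ℤ)

/-- SYA: `MX_z` is stable under the permutations of the first indices, if `z` fixes them -/
def S_SYA : Prop := ∀ (N m : ℕ) (z : Equiv.Perm (Fin N)), (∀ i : Fin N, i.1 < m → z i = i) →
  ∀ σ : Equiv.Perm (Fin N), (∀ i : Fin N, m ≤ i.1 → σ i = i) → ∀ x : Sym2 (Fin N) → ℂ,
    x ∈ MX z → (fun s => x (s.map σ)) ∈ MX z

/-- SYB: the `K`-polynomial is symmetric (from SYA) -/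
def S_SYB : Prop := ∀ (N m : ℕ) (z : Equiv.Perm (Fin N)), (∀ i : Fin N, i.1 < m → z i = i) →
  ∀ σ : Equiv.Perm (Fin N), (∀ i : Fin N, m ≤ i.1 → σ i = i) → ∀ K : MvPolynomial (Fin N) ℤ,
    IsK wt (MX z) K → rename σ K = K

/-- CDA: the codimension is what it should be -/
def S_CDA : Prop := ∀ (N : ℕ) (z : Equiv.Perm (Fin N)),
  ((codim z : ℕ) : WithBot ℕ∞) + ringKrullDim (CRing (MX z)) =
    ((N * (N + 1) / 2 : ℕ) : WithBot ℕ∞)

/-- CDB: the dimension grows at least by `N + 1` (from SCH) -/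
def S_CDB : Prop := ∀ (N : ℕ) (z : Equiv.Perm (Fin N)),
  ringKrullDim (CRing (MX z)) + ((N + 1 : ℕ) : WithBot ℕ∞) ≤ ringKrullDim (CRing (MX (ext z)))

/-- BET: the variable `β` only records the degree -/
def S_BET : Prop := ∀ (N : ℕ) (K : MvPolynomial (Fin N) ℤ) (γ : ℕ →₀ ℕ),
  coeff γ (rename Fin.val (aeval (fun i => 1 + C (LaurentPolynomial.T 1) * X i :
    Fin N → MvPolynomial (Fin N) (LaurentPolynomial ℤ)) K)) =
  coeff γ (rename Fin.val (aeval (fun i => 1 + X i : Fin N → MvPolynomial (Fin N) ℤ) K)) •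
    (LaurentPolynomial.T (γ.degree : ℤ) : LaurentPolynomial ℤ)

/-- TAY: Taylor coefficients at `a = 1` of `K'` and of `K = K'(1, a)` -/
def S_TAY : Prop := ∀ (N l : ℕ) (K : MvPolynomial (Fin N) ℤ) (K' : MvPolynomial (Fin (N + 1)) ℤ),
  l ≤ N → aeval (Fin.cons 1 X : Fin (N + 1) → MvPolynomial (Fin N) ℤ) K' = K →
  (∀ σ : Equiv.Perm (Fin (N + 1)), (∀ i, l < i.1 → σ i = i) → rename σ K' = K') →
  ∀ γ : ℕ →₀ ℕ, (∀ i ∈ γ.support, i < l) →
    coeff γ (rename Fin.val (aeval (fun i => 1 + X i :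
      Fin (N + 1) → MvPolynomial (Fin (N + 1)) ℤ) K')) =
    coeff γ (rename Fin.val (aeval (fun i => 1 + X i : Fin N → MvPolynomial (Fin N) ℤ) K))

/-- SIG: `1 ^ (m + 1) × z = 1 × (1 ^ m × z)` -/
def S_SIG : Prop := ∀ (n m : ℕ) (z : Equiv.Perm (Fin n)),
  (⟨m + 1 + n, ones (m + 1) z⟩ : Σ N : ℕ, Equiv.Perm (Fin N)) = ⟨m + n + 1, ext (ones m z)⟩

end Q151.OG
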