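import Pool.Agent.Q151.OG.HON
import Pool.Agent.Q151.OG.EVA
import Pool.Agent.Q151.OG.SYB
import Pool.Agent.Q151.OG.CDB
import Pool.Agent.Q151.OG.TAY
import Pool.Agent.Q153.OG.SCH
import Pool.Agent.Q153.OG.EXB
import Pool.Agent.Q251.OGEXA
import Pool.Agent.Q277.OG.PRD
import Pool.Agent.Q277.OG.BET
import Pool.Agent.Q277.OG.CDA
import Pool.Agent.Q277.OG.SYA
import Pool.Agent.Q16.OG.FRE

/-!
# Assembly (project OG)
-/

set_option autoImplicit false

namespace Q151.OG

open MvPolynomial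

/-! ### all lemmas -/

theorem a_hon : S_HON :=
  hon (Pool.Agent.Q16.OG.ker Pool.Agent.Q153.OG.sch Pool.Agent.Q153.OG.sci) Pool.Agent.Q16.OG.img

theorem a_fre : S_FRE := Pool.Agent.Q16.OG.fre Pool.Agent.Q16.OG.fro

theorem a_eva : S_EVA := eva Pool.Agent.Q277.OG.prd

theorem a_syb : S_SYB := syb Pool.Agent.Q277.OG.sya

theorem a_cdb : S_CDB := cdb Pool.Agent.Q153.OG.sch

theorem wt_ne {N : ℕ} (s : Sym2 (Fin N)) : wt s ≠ 0 := by
  induction s using Sym2.ind with
  | _ i j =>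
    intro h
    have h1 : (Finsupp.single i 1 + Finsupp.single j 1 : Fin N →₀ ℕ) i = 0 := by
      have : wt s(i, j) = (Finsupp.single i 1 + Finsupp.single j 1 : Fin N →₀ ℕ) := rfl
      rw [← this, h]
      rfl
    rw [Finsupp.add_apply, Finsupp.single_eq_same] at h1
    omega

/-! ### the `K`-polynomial -/

theorem isK_unique {σ ι : Type} [Fintype σ] {w : σ → (ι →₀ ℕ)} {V : Set (σ → ℂ)}
    {K K' : MvPolynomial ι ℤ} (h : IsK w V K) (h' : IsK w V K') : K = K' := by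
  apply coe_injective
  exact h.trans h'.symm

theorem isK_exists {σ ι : Type} [Fintype σ] (w : σ → (ι →₀ ℕ)) (hw : ∀ s, w s ≠ 0)
    (V : Set (σ → ℂ)) : ∃ K, IsK w V K := by
  obtain ⟨U, hU, hc⟩ := Pool.Agent.Q251.OGE.exa σ ι w hw V
  obtain ⟨K, hK⟩ := Pool.Agent.Q153.OG.exb σ ι w hw U hU
  refine ⟨K, ?_⟩
  have h1 : hser w V = cser w U := by
    funext μ
    show ((hilb w V μ : ℕ) : ℤ) = _
    rw [hc μ]
    rfl
  rw [IsK, h1]
  exact hK

theorem kpol_isK {N : ℕ} (z : Equiv.Perm (Fin N)) : IsK wt (MX z) (Kpol wt (MX z)) := by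
  classical
  have h := isK_exists wt wt_ne (MX z)
  unfold Kpol
  rw [dif_pos h]
  exact h.choose_spec

/-- SLI: the `K`-polynomial of `1 × z` at `a_0 = 1` -/
theorem sli {N : ℕ} (z : Equiv.Perm (Fin N)) :
    aeval (Fin.cons 1 X : Fin (N + 1) → MvPolynomial (Fin N) ℤ) (Kpol wt (MX (ext z))) =
      Kpol wt (MX z) := by
  have h1 := a_eva N (hser wt (MX (ext z))) (hser wE (VE z)) (Kpol wt (MX (ext z))) (by
    intro k κ hk
    show ((hilb wt (MX (ext z)) (Finsupp.cons k κ) : ℕ) : ℤ) = _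
    rw [a_hon N z k κ hk]
    by_cases hp : Even (k + ∑ i, κ i)
    · rw [if_pos hp, if_pos hp]
      rfl
    · rw [if_neg hp, if_neg hp]
      rfl) (kpol_isK (ext z))
  have h2 : hser wE (VE z) * ∏ j : Fin N, (1 - MvPowerSeries.X j) = hser wt (MX z) := by
    have h3 := a_fre (Sym2 (Fin N)) (Fin N) (Fin N) wt (fun j => Finsupp.single j 1) wt_ne
      (fun t h => by
        have := DFunLike.congr_fun h t
        rw [Finsupp.single_eq_same] at this
        exact one_ne_zero this) (MX z)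
    exact h3
  rw [h2] at h1
  apply coe_injective
  exact h1.trans (kpol_isK z).symm

/-! ### the codimension -/

theorem nat_of_add (a n : ℕ) (x : WithBot ℕ∞) (h : (a : WithBot ℕ∞) + x = (n : WithBot ℕ∞)) :
    ∃ d : ℕ, x = (d : WithBot ℕ∞) ∧ a + d = n := by
  induction x with
  | bot =>
    rw [WithBot.add_bot] at h
    exact absurd h.symm (WithBot.natCast_ne_bot n)
  | coe x =>
    induction x with
    | top =>
      have h1 : ((a : WithBot ℕ∞) + ((⊤ : ℕ∞) : WithBot ℕ∞)) = (((a : ℕ∞) + ⊤ : ℕ∞) : WithBot ℕ∞) := rfl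
      rw [h1, add_top] at h
      have h2 : ((n : ℕ) : WithBot ℕ∞) = ((n : ℕ∞) : WithBot ℕ∞) := rfl
      rw [h2, WithBot.coe_inj] at h
      exact absurd h.symm (ENat.natCast_ne_top n)
    | coe d =>
      refine ⟨d, rfl, ?_⟩
      exact_mod_cast h

theorem codim_ext_le {N : ℕ} (z : Equiv.Perm (Fin N)) : codim (ext z) ≤ codim z := by
  have h1 := Pool.Agent.Q277.OG.cda N z
  have h2 := Pool.Agent.Q277.OG.cda (N + 1) (ext z)
  have h3 := a_cdb N z
  obtain ⟨d, hd, e1⟩ := nat_of_add _ _ _ h1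
  obtain ⟨d', hd', e2⟩ := nat_of_add _ _ _ h2
  rw [hd, hd'] at h3
  have h4 : d + (N + 1) ≤ d' := by exact_mod_cast h3
  have h5 : (N + 1) * (N + 1 + 1) / 2 = N * (N + 1) / 2 + (N + 1) := by
    have : (N + 1) * (N + 1 + 1) = N * (N + 1) + (N + 1) * 2 := by ring
    rw [this, Nat.add_mul_div_right _ _ (by norm_num)]
  omega

/-- functions of the permutation and its size -/
theorem step {α : Type} (F : (Σ N : ℕ, Equiv.Perm (Fin N)) → α) {n : ℕ} (m : ℕ)
    (z : Equiv.Perm (Fin n)) : F ⟨m + 1 + n, ones (m + 1) z⟩ = F ⟨m + n + 1, ext (ones m z)⟩ :=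
  congrArg F (Pool.Agent.Q277.OG.sig n m z)

theorem codim_anti {n : ℕ} (z : Equiv.Perm (Fin n)) : Antitone fun m => codim (ones m z) := by
  apply antitone_nat_of_succ_le
  intro m
  have h := step (fun p => codim p.2) m z
  rw [h]
  exact codim_ext_le _

theorem codim_const {n : ℕ} (z : Equiv.Perm (Fin n)) :
    ∃ M, ∀ m ≥ M, codim (ones m z) = codim (ones M z) := by
  obtain ⟨c, ⟨M, hM⟩, hc⟩ := WellFounded.has_min (wellFounded_lt (α := ℕ))
    (Set.range fun m => codim (ones m z)) ⟨_, 0, rfl⟩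
  refine ⟨M, fun m hm => le_antisymm (codim_anti z hm) ?_⟩
  have := hc (codim (ones m z)) ⟨m, rfl⟩
  have hM' : codim (ones M z) = c := hM
  omega

/-! ### the Taylor coefficients -/

/-- the coefficients of the `K`-polynomial at `a = 1 + x` -/
noncomputable def tay1 (γ : ℕ →₀ ℕ) {N : ℕ} (z : Equiv.Perm (Fin N)) : ℤ :=
  coeff γ (rename Fin.val (aeval (fun i => 1 + X i : Fin N → MvPolynomial (Fin N) ℤ)
    (Kpol wt (MX z))))

theorem coeff_GO (γ : ℕ →₀ ℕ) {N : ℕ} (z : Equiv.Perm (Fin N)) :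
    coeff γ (rename Fin.val (GO z)) =
      ((-1) ^ codim z * LaurentPolynomial.T (-(codim z : ℤ))) *
        (tay1 γ z • (LaurentPolynomial.T (γ.degree : ℤ) : LaurentPolynomial ℤ)) := by
  unfold GO tay1
  rw [map_mul, rename_C, coeff_C_mul, Pool.Agent.Q277.OG.bet N (Kpol wt (MX z)) γ]

theorem ext_fix {n m : ℕ} (z : Equiv.Perm (Fin n)) (i : Fin (m + n + 1)) (hi : i.1 < m + 1) :
    ext (ones m z) i = i := by
  induction i using Fin.cases with
  | zero => exact Pool.Agent.Q277.OG.ext_zero _ _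
  | succ i =>
    rw [Pool.Agent.Q277.OG.ext_succ]
    have h : i.1 < m := by
      have : i.succ.1 = i.1 + 1 := rfl
      omega
    have h2 : i = Fin.castAdd n ⟨i.1, h⟩ := rfl
    rw [h2, Pool.Agent.Q277.OG.ones_left]

theorem tay_step {n : ℕ} (z : Equiv.Perm (Fin n)) (γ : ℕ →₀ ℕ) (l m : ℕ)
    (hγ : ∀ i ∈ γ.support, i < l) (hm : l ≤ m) :
    tay1 γ (ones (m + 1) z) = tay1 γ (ones m z) := by
  have h := step (fun p => tay1 γ p.2) m z
  rw [h]
  refine tay (m + n) l (Kpol wt (MX (ones m z))) (Kpol wt (MX (ext (ones m z)))) (by omega)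
    (sli (ones m z)) ?_ γ hγ
  intro σ hσ
  exact a_syb (m + n + 1) (l + 1) (ext (ones m z)) (fun i hi => ext_fix z i (by omega)) σ
    (fun i hi => hσ i (by omega)) _ (kpol_isK _)

theorem tay_const {n : ℕ} (z : Equiv.Perm (Fin n)) (γ : ℕ →₀ ℕ) (l M : ℕ)
    (hγ : ∀ i ∈ γ.support, i < l) (hM : l ≤ M) (m : ℕ) (hm : M ≤ m) :
    tay1 γ (ones m z) = tay1 γ (ones M z) := by
  induction m, hm using Nat.le_induction with
  | base => rfl
  | succ m hm ih => rw [tay_step z γ l m hγ (le_trans hM hm), ih]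

theorem main {n : ℕ} (z : Equiv.Perm (Fin n)) (γ : ℕ →₀ ℕ) : ∃ M, ∀ m ≥ M,
    coeff γ (rename Fin.val (GO (ones m z))) = coeff γ (rename Fin.val (GO (ones M z))) := by
  obtain ⟨M, hM⟩ := codim_const z
  obtain ⟨l, hl⟩ : ∃ l, ∀ i ∈ γ.support, i < l := by
    refine ⟨γ.support.sup id + 1, fun i hi => ?_⟩
    have := Finset.le_sup (f := id) hi
    exact Nat.lt_succ_of_le this
  refine ⟨max M l, fun m hm => ?_⟩
  rw [coeff_GO, coeff_GO, hM m (le_trans (le_max_left _ _) hm), hM (max M l) (le_max_left _ _),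
    tay_const z γ l (max M l) hl (le_max_right _ _) m hm]

end Q151.OG
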