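import Mathlib

/-!
# Orthogonal Grothendieck polynomials (definitions)

Problem MP_163e4a_co. A symmetric matrix of size `N` is given by its entries `x s(i, j)`, indexed by
the unordered pairs `s(i, j)` of indices (`Sym2 (Fin N)`); indices start at `0`.
-/

set_option autoImplicit false

namespace Q151.OG

open MvPolynomial

/-- the symmetric matrix whose entry in the places `(i, j)` and `(j, i)` is `x s(i, j)` -/
def mat {N : ℕ} (x : Sym2 (Fin N) → ℂ) : Matrix (Fin N) (Fin N) ℂ :=
  Matrix.of fun i j => x s(i, j)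

/-- the upper left `i × j` submatrix `A_[i][j]` (rows `a < i` and columns `b < j`) -/
def corner {N : ℕ} (A : Matrix (Fin N) (Fin N) ℂ) (i j : ℕ) :
    Matrix {a : Fin N // a.1 < i} {b : Fin N // b.1 < j} ℂ :=
  A.submatrix Subtype.val Subtype.val

/-- `MX_z`: the symmetric matrices `A` with `rank A_[i][j] ≤ rank z_[i][j]` for all `i, j`, where `z`
is identified with its permutation matrix (entry `1` in the places `(i, z i)`) -/
def MX {N : ℕ} (z : Equiv.Perm (Fin N)) : Set (Sym2 (Fin N) → ℂ) :=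
  {x | ∀ i j : ℕ, (corner (mat x) i j).rank ≤ (corner (z.permMatrix ℂ) i j).rank}

/-- the coordinate `A_ij` has weight `a_i a_j`, i.e. degree `e_i + e_j` -/
noncomputable def wt {N : ℕ} : Sym2 (Fin N) → (Fin N →₀ ℕ) :=
  Sym2.lift ⟨fun i j => Finsupp.single i 1 + Finsupp.single j 1, fun _ _ => add_comm _ _⟩

/-- the coordinate ring of a set of points of an affine space -/
abbrev CRing {σ : Type} (V : Set (σ → ℂ)) : Type := MvPolynomial σ ℂ ⧸ vanishingIdeal ℂ V

/-- the dimension of the part of weight `μ` of the coordinate ring -/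
noncomputable def hilb {σ ι : Type} (w : σ → (ι →₀ ℕ)) (V : Set (σ → ℂ)) (μ : ι →₀ ℕ) : ℕ :=
  Module.finrank ℂ ↥((weightedHomogeneousSubmodule ℂ w μ).map
    (Ideal.Quotient.mkₐ ℂ (vanishingIdeal ℂ V)).toLinearMap)

/-- the multigraded Hilbert series of the coordinate ring -/
noncomputable def hser {σ ι : Type} (w : σ → (ι →₀ ℕ)) (V : Set (σ → ℂ)) : MvPowerSeries ι ℤ :=
  fun μ => (hilb w V μ : ℤ)

/-- the product of all `1 - a ^ w s` -/
noncomputable def den {σ ι : Type} [Fintype σ] (w : σ → (ι →₀ ℕ)) : MvPolynomial ι ℤ :=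
  ∏ s : σ, (1 - monomial (w s) 1)

/-- `K` is the `K`-polynomial: the Hilbert series divided by the product of all
`(1 - a ^ w s) ^ (-1)` -/
def IsK {σ ι : Type} [Fintype σ] (w : σ → (ι →₀ ℕ)) (V : Set (σ → ℂ)) (K : MvPolynomial ι ℤ) :
    Prop :=
  (K : MvPowerSeries ι ℤ) = hser w V * (den w : MvPowerSeries ι ℤ)

open Classical in
/-- the `K`-polynomial (it exists and is unique) -/
noncomputable def Kpol {σ ι : Type} [Fintype σ] (w : σ → (ι →₀ ℕ)) (V : Set (σ → ℂ)) :
    MvPolynomial ι ℤ :=
  if h : ∃ K, IsK w V K then h.choose else 0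

/-- the codimension of `MX_z` in the space of symmetric matrices, which has dimension
`N (N + 1) / 2` -/
noncomputable def codim {N : ℕ} (z : Equiv.Perm (Fin N)) : ℕ :=
  N * (N + 1) / 2 - ((ringKrullDim (CRing (MX z))).unbotD 0).toNat

/-- the orthogonal Grothendieck polynomial `(-β) ^ (-c) [MX_z]_T` at `a_i = 1 + β x_i`; the variable
of the Laurent polynomials is `β` -/
noncomputable def GO {N : ℕ} (z : Equiv.Perm (Fin N)) :
    MvPolynomial (Fin N) (LaurentPolynomial ℤ) :=
  C ((-1) ^ codim z * LaurentPolynomial.T (-(codim z : ℤ))) *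
    aeval (fun i => 1 + C (LaurentPolynomial.T 1) * X i) (Kpol wt (MX z))

/-- `1 ^ m × z` fixes the first `m` indices and maps `m + i` to `m + z i` -/
def ones {n : ℕ} (m : ℕ) (z : Equiv.Perm (Fin n)) : Equiv.Perm (Fin (m + n)) :=
  finSumFinEquiv.permCongr (Equiv.sumCongr (Equiv.refl (Fin m)) z)

end Q151.OG
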