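import Pool.Agent.Q151.OG.Stm

set_option autoImplicit false

namespace Q151.OG

open MvPolynomial

theorem finrank_range_of_ker {V W W' : Type} [AddCommGroup V] [Module ℂ V] [AddCommGroup W]
    [Module ℂ W] [AddCommGroup W'] [Module ℂ W'] (f : V →ₗ[ℂ] W) (g : V →ₗ[ℂ] W')
    (h : LinearMap.ker f = LinearMap.ker g) :
    Module.finrank ℂ ↥(LinearMap.range f) = Module.finrank ℂ ↥(LinearMap.range g) :=
  (f.quotKerEquivRange.symm.trans
    ((Submodule.quotEquivOfEq _ _ h).trans g.quotKerEquivRange)).finrank_eq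

/-- two linear maps with the same kernel on a subspace -/
theorem finrank_map_of_ker {V W W' : Type} [AddCommGroup V] [Module ℂ V] [AddCommGroup W]
    [Module ℂ W] [AddCommGroup W'] [Module ℂ W'] (P : Submodule ℂ V) (f : V →ₗ[ℂ] W)
    (g : V →ₗ[ℂ] W') (h : ∀ x ∈ P, f x = 0 ↔ g x = 0) :
    Module.finrank ℂ ↥(P.map f) = Module.finrank ℂ ↥(P.map g) := by
  have h1 := finrank_range_of_ker (f.domRestrict P) (g.domRestrict P) (by
    ext x
    exact h x.1 x.2)
  rw [LinearMap.range_domRestrict, LinearMap.range_domRestrict] at h1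
  exact h1

theorem mk_eq_zero {σ : Type} (I : Ideal (MvPolynomial σ ℂ)) (f : MvPolynomial σ ℂ) :
    (Ideal.Quotient.mkₐ ℂ I).toLinearMap f = 0 ↔ f ∈ I := by
  show Ideal.Quotient.mk I f = 0 ↔ f ∈ I
  exact Ideal.Quotient.eq_zero_iff_mem

theorem hon (h1 : S_KER) (h2 : S_IMG) : S_HON := by
  intro N z k κ hk
  unfold hilb
  rw [finrank_map_of_ker _ _ ((Ideal.Quotient.mkₐ ℂ (vanishingIdeal ℂ (VE z))).toLinearMap ∘ₗ
    (th N).toLinearMap)]
  · rw [Submodule.map_comp, h2 N k κ hk.le]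
    by_cases h : Even (k + ∑ i, κ i)
    · rw [if_pos h, if_pos h]
    · rw [if_neg h, if_neg h, Submodule.map_bot, finrank_bot]
  · intro f hf
    rw [mk_eq_zero, h1 N z k κ hk f hf, LinearMap.comp_apply, mk_eq_zero]
    rfl

end Q151.OG
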